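import Mathlib
import Pool.Agent.P.MP_65e938_an.Sub.Main

set_option autoImplicit false

universe u

namespace Pool.Agent.Results.MP_65e938_an.ReductiveSubnormal

variable {H : Type u} [NormedAddCommGroup H] [InnerProductSpace ℂ H] [CompleteSpace H]

/-- A quasi-affinity: an injective bounded operator with dense range. -/
def IsQuasiAffinity (X : H →L[ℂ] H) : Prop :=
  Function.Injective X ∧ DenseRange X

/-- `A` and `B` are quasi-similar: `XA = BX` and `AY = YB` for some quasi-affinities `X`, `Y`. -/
def QuasiSimilar (A B : H →L[ℂ] H) : Prop :=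
  ∃ X Y : H →L[ℂ] H, IsQuasiAffinity X ∧ IsQuasiAffinity Y ∧ X * A = B * X ∧ A * Y = Y * B

/-- `S` is subnormal: it is the restriction of a normal operator on a larger Hilbert space, into
which `H` is embedded by a linear isometry. -/
def IsSubnormal (S : H →L[ℂ] H) : Prop :=
  ∃ (K : Type u) (_ : NormedAddCommGroup K) (_ : InnerProductSpace ℂ K) (_ : CompleteSpace K)
    (N : K →L[ℂ] K) (J : H →ₗᵢ[ℂ] K), IsStarNormal N ∧ ∀ x, J (S x) = N (J x)

/-- The algebra generated by `A`: the smallest unital subalgebra of `B(H)` that contains `A` and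
is closed in the weak operator topology. -/
noncomputable def generatedAlgebra (A : H →L[ℂ] H) : Subalgebra ℂ (H →L[ℂ] H) :=
  sInf {S : Subalgebra ℂ (H →L[ℂ] H) |
    A ∈ S ∧ IsClosed (ContinuousLinearMapWOT.ofCLM '' (S : Set (H →L[ℂ] H)))}

/-- A subalgebra is reductive if every closed subspace invariant under all its members is
invariant under all their adjoints. -/
def IsReductive (S : Subalgebra ℂ (H →L[ℂ] H)) : Prop :=
  ∀ M : Submodule ℂ H, IsClosed (M : Set H) → (∀ T ∈ S, ∀ x ∈ M, T x ∈ M) →
    ∀ T ∈ S, ∀ x ∈ M, ContinuousLinearMap.adjoint T x ∈ M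

/-- An operator on a complex Hilbert space that is quasi-similar to a subnormal operator and
generates a reductive weakly closed algebra is normal. -/
theorem result {H : Type u} [NormedAddCommGroup H] [InnerProductSpace ℂ H] [CompleteSpace H]
    (A : H →L[ℂ] H) (hqs : ∃ S : H →L[ℂ] H, IsSubnormal S ∧ QuasiSimilar A S)
    (hred : IsReductive (generatedAlgebra A)) : IsStarNormal A := by
  obtain ⟨S, ⟨K, _, _, _, N, J, hN, hJ⟩, X, Y, hX, hY, hXA, hAY⟩ := hqs
  have hJJ : ∀ x, ContinuousLinearMap.adjoint J.toContinuousLinearMap (J x) = x := fun x =>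
    ext_inner_left ℂ fun y => by
      rw [ContinuousLinearMap.adjoint_inner_right]
      exact J.inner_map_map y x
  have hV : (Y ∘L ContinuousLinearMap.adjoint J.toContinuousLinearMap) ∘L
      (J.toContinuousLinearMap ∘L X) = Y * X := by
    ext x
    exact congrArg Y (hJJ (X x))
  refine Pool.Agent.P.MP_65e938_an.Sub.normal_of_factor (X := J.toContinuousLinearMap ∘L X)
    (Y := Y ∘L ContinuousLinearMap.adjoint J.toContinuousLinearMap) ?_ hN (fun x => ?_) ?_ ?_
  · intro M hM hA
    let T : Subalgebra ℂ (H →L[ℂ] H) :=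
      { carrier := {T | ∀ x ∈ M, T x ∈ M}
        mul_mem' := fun {a b} ha hb x hx => ha _ (hb x hx)
        add_mem' := fun {a b} ha hb x hx => M.add_mem (ha x hx) (hb x hx)
        algebraMap_mem' := fun r x hx => M.smul_mem r hx }
    have hle : generatedAlgebra A ≤ T :=
      sInf_le ⟨hA, Pool.Agent.P.MP_65e938_an.isClosed_wot_invariant M hM⟩
    have hmem : A ∈ generatedAlgebra A := Algebra.mem_sInf.mpr fun _ hS => hS.1
    exact hred M hM (fun T hT => hle hT) A hmem
  · exact (congrArg J (congrArg (fun T : H →L[ℂ] H => T x) hXA)).trans (hJ (X x))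
  · rw [hV]
    change Y * X * A = A * (Y * X)
    rw [mul_assoc, hXA, ← mul_assoc, ← hAY, mul_assoc]
  · rw [hV]
    exact hY.1.comp hX.1

end Pool.Agent.Results.MP_65e938_an.ReductiveSubnormal
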